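import Pool.Agent.Work.MP_b30479_gt.G2.MRBase
import Pool.Agent.Work.MP_b30479_gt.LT.H.AlgH
import Pool.Agent.Work.NumU.Node

/-!
# Numerics of `UU` on a wider strip: analytic part

`uu x t = UU (x + i t)`, `yy x t = YY (x + i t)` (vertical derivative) for all real `x`: symmetries,
expansion near `x = 0` for `t ≠ 0`, modulus near the singular point.
-/

namespace Pool.Agent.Work.NumX

open MP_b30479_gt MP_b30479_gt.VOL MP_b30479_gt.G2 MP_b30479_gt.G2.Num MP_b30479_gt.G2.MR NumU

/-- vertical derivative of `UU` -/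
noncomputable def yy (x t : ℝ) : ℝ := YY ⟨x, t⟩

theorem YY_yy (w : ℂ) : YY w = yy w.re w.im := rfl

/-- sign -/
noncomputable def sg (t : ℝ) : ℝ := if 0 < t then 1 else if t < 0 then -1 else 0

theorem uu_neg_left (x t : ℝ) : uu (-x) t = -uu x t - Real.pi * |t| := by
  have h1 := uu_one_sub (-x) t
  have h2 := uu_add_one x t
  rw [show (1 : ℝ) - -x = x + 1 by ring, h2] at h1
  linarith only [h1]

theorem uu_zero_left (t : ℝ) : uu 0 t = -(Real.pi * |t| / 2) := by
  have h1 := uu_neg_left 0 t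
  rw [neg_zero] at h1
  linarith only [h1]

theorem uu_sub_one (x t : ℝ) : uu x t = uu (x - 1) t + Real.pi * |t| := by
  have h := uu_add_one (x - 1) t
  rwa [sub_add_cancel] at h

theorem continuous_uu (t : ℝ) : Continuous fun x => uu x t := by
  have h1 : Continuous fun x : ℝ => (x : ℂ) + t * Complex.I := by fun_prop
  have h2 := continuous_UU.comp h1
  refine h2.congr fun x => ?_
  show UU ((x : ℂ) + t * Complex.I) = UU ⟨x, t⟩
  congr 1
  apply Complex.ext <;> simp

theorem hasDerivAt_uu {y t : ℝ} (h0 : 0 < y) (h1 : y < 1) :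
    HasDerivAt (fun y => uu y t) (NumI.lnA y t) y := by
  have h := uu_line (x := 0) (t := t) (a := 1) (b := 0) (τ := y) (by simpa using h0)
    (by simpa using h1)
  simpa using h

/-- mean value -/
theorem mvt {y t : ℝ} (h0 : 0 < y) (h1 : y < 1) :
    ∃ ξ, 0 < ξ ∧ ξ < y ∧ uu y t + Real.pi * |t| / 2 = y * NumI.lnA ξ t := by
  obtain ⟨ξ, hξ, he⟩ := exists_hasDerivAt_eq_slope (fun y => uu y t) (fun y => NumI.lnA y t) h0
    (continuous_uu t).continuousOn fun ξ hξ => hasDerivAt_uu hξ.1 (hξ.2.trans h1)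
  refine ⟨ξ, hξ.1, hξ.2, ?_⟩
  have he' : NumI.lnA ξ t = (uu y t - uu 0 t) / (y - 0) := he
  rw [he', uu_zero_left, sub_zero]
  field_simp
  ring

theorem lnA_near {ξ t : ℝ} (ht : t ≠ 0) :
    Real.log (2 * Real.sinh (Real.pi * |t|)) ≤ NumI.lnA ξ t ∧
      NumI.lnA ξ t ≤ Real.log (2 * Real.sinh (Real.pi * |t|)) + ξ ^ 2 / (2 * t ^ 2) := by
  have hp := Real.pi_pos
  have hat : 0 < |t| := abs_pos.2 ht
  have hs : 0 < Real.sinh (Real.pi * |t|) := Real.sinh_pos_iff.2 (by positivity)
  have e1 : Real.sinh (Real.pi * t) ^ 2 = Real.sinh (Real.pi * |t|) ^ 2 := by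
    rcases abs_choice t with h | h <;> rw [h]
    rw [mul_neg, Real.sinh_neg, neg_sq]
  set S := Real.sinh (Real.pi * |t|) with hS
  have e2 : Real.log (2 * S) = Real.log (4 * S ^ 2) / 2 := by
    rw [show 4 * S ^ 2 = (2 * S) ^ 2 by ring, Real.log_pow]
    push_cast
    ring
  have hS1 : Real.pi * |t| ≤ S := Real.self_le_sinh_iff.2 (by positivity)
  have hsin : Real.sin (Real.pi * ξ) ^ 2 ≤ (Real.pi * ξ) ^ 2 := by
    rw [sq_le_sq]
    exact Real.abs_sin_le_abs
  unfold NumI.lnA
  rw [e1, e2]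
  have hq : 0 < 4 * S ^ 2 := by positivity
  constructor
  · have := Real.log_le_log hq (show 4 * S ^ 2 ≤ 4 * (Real.sin (Real.pi * ξ) ^ 2 + S ^ 2) by
      nlinarith only [sq_nonneg (Real.sin (Real.pi * ξ))])
    linarith only [this]
  · have h1 : 4 * (Real.sin (Real.pi * ξ) ^ 2 + S ^ 2) =
        4 * S ^ 2 * (1 + Real.sin (Real.pi * ξ) ^ 2 / S ^ 2) := by
      field_simp
      ring
    have h2 : 0 < 1 + Real.sin (Real.pi * ξ) ^ 2 / S ^ 2 := by positivity
    rw [h1, Real.log_mul hq.ne' h2.ne']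
    have h3 : Real.log (1 + Real.sin (Real.pi * ξ) ^ 2 / S ^ 2) ≤
        Real.sin (Real.pi * ξ) ^ 2 / S ^ 2 := by
      have := Real.log_le_sub_one_of_pos h2
      linarith only [this]
    have h4 : Real.sin (Real.pi * ξ) ^ 2 / S ^ 2 ≤ ξ ^ 2 / t ^ 2 := by
      have h5 : (Real.pi * |t|) ^ 2 ≤ S ^ 2 := by gcongr
      calc Real.sin (Real.pi * ξ) ^ 2 / S ^ 2 ≤ (Real.pi * ξ) ^ 2 / (Real.pi * |t|) ^ 2 := by
            gcongr
        _ = ξ ^ 2 / t ^ 2 := by
            rw [mul_pow, mul_pow, sq_abs]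
            field_simp
    have e5 : ξ ^ 2 / (2 * t ^ 2) = ξ ^ 2 / t ^ 2 / 2 := by
      field_simp
    rw [e5]
    linarith only [h3, h4]

/-- expansion near `x = 0` -/
theorem near {y t : ℝ} (ht : t ≠ 0) (h1 : |y| < 1) :
    |uu y t + Real.pi * |t| / 2 - y * Real.log (2 * Real.sinh (Real.pi * |t|))| ≤
      |y| ^ 3 / (2 * t ^ 2) := by
  have key : ∀ y : ℝ, 0 < y → y < 1 →
      |uu y t + Real.pi * |t| / 2 - y * Real.log (2 * Real.sinh (Real.pi * |t|))| ≤
      |y| ^ 3 / (2 * t ^ 2) := by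
    intro y h0 h1
    obtain ⟨ξ, a1, a2, a3⟩ := mvt (t := t) h0 h1
    obtain ⟨b1, b2⟩ := lnA_near (ξ := ξ) ht
    have ht2 : 0 < t ^ 2 := by positivity
    have h3 : ξ ^ 2 / (2 * t ^ 2) ≤ y ^ 2 / (2 * t ^ 2) := by gcongr
    rw [a3, ← mul_sub, abs_mul, abs_of_pos h0, abs_of_nonneg (by linarith only [b1])]
    have e : y ^ 3 / (2 * t ^ 2) = y * (y ^ 2 / (2 * t ^ 2)) := by ring
    rw [e]
    exact mul_le_mul_of_nonneg_left (by linarith only [b2, h3]) h0.le
  rcases lt_trichotomy y 0 with h0 | h0 | h0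
  · have h2 := key (-y) (by linarith only [h0]) (by rw [abs_of_neg h0] at h1; exact h1)
    rw [uu_neg_left, abs_neg] at h2
    rw [← abs_neg]
    convert h2 using 2
    ring
  · rw [h0, uu_zero_left]
    simp
  · exact key y h0 (by rwa [abs_of_pos h0] at h1)

/-- `sin (π x) ≥ 3 x` on `[0, 1/6]` -/
theorem three_mul_le_sin {x : ℝ} (h0 : 0 ≤ x) (h1 : x ≤ 1 / 6) : 3 * x ≤ Real.sin (Real.pi * x) := by
  have hp := Real.pi_pos
  have hc := strictConcaveOn_sin_Icc.concaveOn
  have h2 := hc.2 (show (0 : ℝ) ∈ Set.Icc 0 Real.pi from ⟨le_rfl, hp.le⟩)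
    (show Real.pi / 6 ∈ Set.Icc 0 Real.pi from ⟨by positivity, by linarith only [hp]⟩)
    (show 0 ≤ 1 - 6 * x by linarith only [h1]) (show 0 ≤ 6 * x by linarith only [h0]) (by ring)
  simp only [smul_eq_mul, Real.sin_zero, mul_zero, zero_add, Real.sin_pi_div_six] at h2
  have e : 6 * x * (Real.pi / 6) = Real.pi * x := by ring
  rw [e] at h2
  linarith only [h2]

theorem lnA_nonpos {ξ t : ℝ} (hξ : |ξ| ≤ 1 / 10) (ht : |t| ≤ 1 / 10) : NumI.lnA ξ t ≤ 0 := by
  have hp := Real.pi_pos
  have hp2 := Real.pi_lt_d2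
  have h1 : Real.sin (Real.pi * ξ) ^ 2 ≤ (Real.pi * ξ) ^ 2 := by
    rw [sq_le_sq]
    exact Real.abs_sin_le_abs
  have e1 : Real.sinh (Real.pi * t) ^ 2 = Real.sinh (Real.pi * |t|) ^ 2 := by
    rcases abs_choice t with h | h <;> rw [h]
    rw [mul_neg, Real.sinh_neg, neg_sq]
  have h2 : Real.sinh (Real.pi * |t|) ≤ 33 / 100 := by
    have h3 : Real.sinh (Real.pi * |t|) ≤ Real.sinh (315 / 1000) := by
      rw [Real.sinh_le_sinh]
      nlinarith only [hp2, ht, hp, abs_nonneg t]
    refine h3.trans ?_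
    rw [Real.sinh_eq]
    have e0 := Real.exp_one_gt_d9
    have h4 : Real.exp (315 / 1000) ≤ 13703 / 10000 := by
      have := Real.exp_bound' (x := 315 / 1000) (by norm_num) (by norm_num) (n := 5) (by norm_num)
      refine this.trans ?_
      norm_num [Finset.sum_range_succ, Nat.factorial]
    have h5 : 1 - 315 / 1000 ≤ Real.exp (-(315 / 1000)) := by
      have := Real.add_one_le_exp (-(315 / 1000) : ℝ)
      linarith only [this]
    have h6 : 7297 / 10000 ≤ Real.exp (-(315 / 1000)) := by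
      rw [Real.exp_neg, le_inv_comm₀ (by norm_num) (Real.exp_pos _)]
      refine h4.trans ?_
      norm_num
    linarith only [h4, h6]
  have hs0 : 0 ≤ Real.sinh (Real.pi * |t|) := Real.sinh_nonneg_iff.2 (by positivity)
  have hξ2 : ξ ^ 2 ≤ (1 / 10) ^ 2 := by
    rw [← sq_abs ξ]
    gcongr
  unfold NumI.lnA
  rw [e1]
  have h7 : 4 * (Real.sin (Real.pi * ξ) ^ 2 + Real.sinh (Real.pi * |t|) ^ 2) ≤ 1 := by
    have : (Real.pi * ξ) ^ 2 ≤ 10 / 100 := by
      rw [mul_pow]
      have : Real.pi ^ 2 ≤ 10 := by nlinarith only [hp2, hp]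
      nlinarith only [hξ2, this, sq_nonneg ξ]
    nlinarith only [h1, h2, this, hs0]
  have h8 := Real.log_nonpos (by positivity) h7
  linarith only [h8]

theorem log_le_lnA {ξ t : ℝ} (h0 : 0 < ξ) (h1 : ξ ≤ 1 / 6) : Real.log (6 * ξ) ≤ NumI.lnA ξ t := by
  have h2 := three_mul_le_sin h0.le h1
  have h3 : 0 < 3 * ξ := by linarith only [h0]
  unfold NumI.lnA
  have e : Real.log (6 * ξ) = Real.log ((6 * ξ) ^ 2) / 2 := by
    rw [Real.log_pow]
    push_cast
    ring
  rw [e]
  have h4 : (6 * ξ) ^ 2 ≤ 4 * (Real.sin (Real.pi * ξ) ^ 2 + Real.sinh (Real.pi * t) ^ 2) := by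
    nlinarith only [h0, h2, h1, sq_nonneg (Real.sinh (Real.pi * t))]
  have := Real.log_le_log (by positivity) h4
  linarith only [this]

/-- near the singular point -/
theorem sing {y t : ℝ} (hy : |y| ≤ 1 / 10) (ht : |t| ≤ 1 / 10) :
    |uu y t + Real.pi * |t| / 2| ≤ |y| * (1 - Real.log (6 * |y|)) := by
  have key : ∀ y : ℝ, 0 < y → y ≤ 1 / 10 →
      |uu y t + Real.pi * |t| / 2| ≤ |y| * (1 - Real.log (6 * |y|)) := by
    intro y h0 h1
    have hup : uu y t + Real.pi * |t| / 2 ≤ 0 := by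
      obtain ⟨ξ, a1, a2, a3⟩ := mvt (t := t) h0 (by linarith only [h0, h1])
      rw [a3]
      exact mul_nonpos_of_nonneg_of_nonpos h0.le
        (lnA_nonpos (by rw [abs_of_pos a1]; linarith only [h1, a2]) ht)
    rw [abs_of_nonpos hup, abs_of_pos h0]
    -- comparison of derivatives
    have hm : MonotoneOn (fun s => uu s t - s * (Real.log (6 * s) - 1)) (Set.Icc 0 (1 / 10)) := by
      have hc : ContinuousOn (fun s => uu s t - s * (Real.log (6 * s) - 1)) (Set.Icc 0 (1 / 10)) := by
        have h6 : Continuous fun s : ℝ => s * (Real.log (6 * s) - 1) := by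
          have h7 : Continuous fun s : ℝ => (6 * s) * Real.log (6 * s) :=
            Real.continuous_mul_log.comp (continuous_const.mul continuous_id)
          refine ((h7.div_const 6).sub continuous_id).congr fun s => ?_
          show 6 * s * Real.log (6 * s) / 6 - s = s * (Real.log (6 * s) - 1)
          ring
        exact ((continuous_uu t).sub h6).continuousOn
      have hd : ∀ s ∈ Set.Ioo (0 : ℝ) (1 / 10), HasDerivAt
          (fun s => uu s t - s * (Real.log (6 * s) - 1)) (NumI.lnA s t - Real.log (6 * s)) s := by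
        intro s hs
        have h8 : HasDerivAt (fun s : ℝ => Real.log (6 * s)) (1 / s) s := by
          have := ((hasDerivAt_id s).const_mul 6).log (by simp; exact hs.1.ne')
          refine this.congr_deriv ?_
          have := hs.1.ne'
          simp
          field_simp
        have h9 := (hasDerivAt_id s).mul (h8.sub_const 1)
        have h10 := (hasDerivAt_uu (t := t) hs.1 (by linarith only [h0, h1, hs, hs.2])).sub h9
        refine h10.congr_deriv ?_
        have := hs.1.ne'
        show NumI.lnA s t - (1 * (Real.log (6 * s) - 1) + s * (1 / s)) =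
          NumI.lnA s t - Real.log (6 * s)
        field_simp
        ring
      refine monotoneOn_of_deriv_nonneg (convex_Icc _ _) hc ?_ ?_
      · rw [interior_Icc]
        exact fun s hs => (hd s hs).differentiableAt.differentiableWithinAt
      · rw [interior_Icc]
        intro s hs
        rw [(hd s hs).deriv]
        have := log_le_lnA (ξ := s) (t := t) hs.1 (by linarith only [h0, h1, hs, hs.2])
        linarith only [this]
    have h2 : uu 0 t - 0 * (Real.log (6 * 0) - 1) ≤ uu y t - y * (Real.log (6 * y) - 1) :=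
      hm ⟨le_rfl, by norm_num⟩ ⟨h0.le, h1⟩ h0.le
    rw [uu_zero_left] at h2
    linarith only [h2]
  rcases lt_trichotomy y 0 with h0 | h0 | h0
  · have h2 := key (-y) (by linarith only [h0]) (by rw [abs_of_neg h0] at hy; exact hy)
    rw [uu_neg_left, abs_neg] at h2
    rw [← abs_neg]
    convert h2 using 2
    ring
  · rw [h0, uu_zero_left]
    simp
  · exact key y h0 (by rwa [abs_of_pos h0] at hy)

/-- the modulus is monotone -/
theorem mod_mono {a e : ℝ} (h0 : 0 ≤ a) (h1 : a ≤ e) (h2 : e ≤ 1 / 6) :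
    a * (1 - Real.log (6 * a)) ≤ e * (1 - Real.log (6 * e)) := by
  rcases h0.eq_or_lt with h0 | h0
  · rw [← h0, zero_mul]
    apply mul_nonneg (by linarith)
    rcases (h0.le.trans h1).eq_or_lt with h3 | h3
    · rw [← h3]; simp
    · have := Real.log_nonpos (by linarith only [h3]) (show 6 * e ≤ 1 by linarith only [h2])
      linarith only [h2, h3, this]
  · have he : 0 < e := h0.trans_le h1
    -- log (6 e) - log (6 a) ≤ (e - a) / a
    have h3 : Real.log (6 * e) - Real.log (6 * a) ≤ e / a - 1 := by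
      rw [← Real.log_div (by positivity) (by positivity)]
      have := Real.log_le_sub_one_of_pos (show 0 < 6 * e / (6 * a) by positivity)
      refine this.trans (le_of_eq ?_)
      field_simp
    have h4 := Real.log_nonpos (by linarith only [h1, h0]) (show 6 * e ≤ 1 by linarith only [h2])
    have h5 : a * (Real.log (6 * e) - Real.log (6 * a)) ≤ e - a := by
      calc a * (Real.log (6 * e) - Real.log (6 * a)) ≤ a * (e / a - 1) := by gcongr
        _ = e - a := by field_simp
    nlinarith only [h5, h1, h4]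

/-! ### large heights -/

theorem far {x t : ℝ} (ht : 3 / 10 ≤ |t|) :
    |uu x t - (-(Real.pi * |t| / 2) + Real.pi * |t| * x -
      Real.exp (-(2 * Real.pi * |t|)) * Real.sin (2 * Real.pi * x) / (2 * Real.pi))| ≤
      Real.exp (-(2 * Real.pi * |t|)) ^ 2 / 20 := by
  have hp := Real.pi_pos
  have hp3 := Real.pi_gt_d2
  have hρ : 0 ≤ |t| := abs_nonneg t
  have h1 := DT.Lr_series hρ x
  set q : ℂ := Complex.exp (2 * Real.pi * Complex.I * (x + |t| * Complex.I)) with hq
  set r := Real.exp (-(2 * Real.pi * |t|)) with hr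
  have hr0 : 0 < r := Real.exp_pos _
  have e1 : (2 * Real.pi * Complex.I * (x + |t| * Complex.I) : ℂ) =
      ((-(2 * Real.pi * |t|) : ℝ) : ℂ) + ((2 * Real.pi * x : ℝ) : ℂ) * Complex.I := by
    push_cast
    linear_combination (2 * Real.pi * |t| : ℂ) * Complex.I_mul_I
  have hqn : ‖q‖ = r := by
    rw [hq, e1, Complex.exp_add, norm_mul, Complex.norm_exp_ofReal_mul_I, mul_one,
      ← Complex.ofReal_exp, Complex.norm_real, Real.norm_of_nonneg (Real.exp_pos _).le]
  have hqi : q.im = r * Real.sin (2 * Real.pi * x) := by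
    have a1 : (((-(2 * Real.pi * |t|) : ℝ) : ℂ) + ((2 * Real.pi * x : ℝ) : ℂ) * Complex.I).re =
        -(2 * Real.pi * |t|) := by
      rw [Complex.add_re, Complex.mul_I_re, Complex.ofReal_im, neg_zero, add_zero, Complex.ofReal_re]
    have a2 : (((-(2 * Real.pi * |t|) : ℝ) : ℂ) + ((2 * Real.pi * x : ℝ) : ℂ) * Complex.I).im =
        2 * Real.pi * x := by
      rw [Complex.add_im, Complex.mul_I_im, Complex.ofReal_im, zero_add, Complex.ofReal_re]
    rw [hq, e1, Complex.exp_im, a1, a2]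
  have hr1 : r ≤ 1 / 6 := by
    have h2 : r ≤ Real.exp (-(94 / 50)) := by
      rw [hr]
      apply Real.exp_le_exp.2
      nlinarith only [hp3, ht, hp]
    refine h2.trans ?_
    rw [Real.exp_neg]
    have h3 : (6 : ℝ) ≤ Real.exp (94 / 50) := by
      have e0 := Real.exp_one_gt_d9
      have h4 : Real.exp (94 / 50) = Real.exp 1 * Real.exp (44 / 50) := by
        rw [← Real.exp_add]; norm_num
      have h5 : 1 + 44 / 50 + (44 / 50) ^ 2 / 2 + (44 / 50) ^ 3 / 6 ≤ Real.exp (44 / 50) := by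
        have := Real.sum_le_exp_of_nonneg (x := 44 / 50) (by norm_num) 4
        norm_num [Finset.sum_range_succ, Nat.factorial] at this ⊢
        linarith only [this]
      rw [h4]
      nlinarith only [e0, h5]
    rw [one_div]
    exact inv_anti₀ (by norm_num) h3
  have hsum : Summable fun k : ℕ => q ^ (k + 1) / ((k : ℂ) + 1) ^ 2 := by
    have h5 : Summable fun k : ℕ => r ^ k := summable_geometric_of_lt_one hr0.le (by linarith only [hr0, hr1])
    refine Summable.of_norm_bounded h5 fun k => ?_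
    rw [norm_div, norm_pow, norm_pow, hqn]
    have h6 : ‖(k : ℂ) + 1‖ = (k : ℝ) + 1 := by
      rw [show (k : ℂ) + 1 = ((k + 1 : ℕ) : ℂ) by push_cast; ring, Complex.norm_natCast]
      push_cast; ring
    rw [h6, div_le_iff₀ (by positivity), pow_succ]
    have h7 : (0 : ℝ) ≤ k := Nat.cast_nonneg k
    have h8 : 0 < r ^ k := by positivity
    nlinarith only [h8, h7, hr1, mul_nonneg h8.le h7, mul_nonneg h8.le (mul_nonneg h7 h7)]
  have h2 := hsum.sum_add_tsum_nat_add 1
  simp only [Finset.range_one, Finset.sum_singleton, Nat.cast_zero, zero_add, pow_one, one_pow,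
    div_one] at h2
  set s := ∑' k : ℕ, q ^ (k + 1 + 1) / (((k + 1 : ℕ) : ℂ) + 1) ^ 2 with hs
  have hsn : ‖s‖ ≤ r ^ 2 * (3 / 10) := by
    have h5 : HasSum (fun k : ℕ => r ^ 2 / 4 * r ^ k) (r ^ 2 / 4 * (1 - r)⁻¹) :=
      (hasSum_geometric_of_lt_one hr0.le (by linarith only [hr0, hr1])).mul_left _
    have h6 : ‖s‖ ≤ r ^ 2 / 4 * (1 - r)⁻¹ := by
      refine tsum_of_norm_bounded h5 fun k => ?_
      rw [norm_div, norm_pow, norm_pow, hqn]
      have h6 : ‖((k + 1 : ℕ) : ℂ) + 1‖ = (k : ℝ) + 2 := by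
        rw [show ((k + 1 : ℕ) : ℂ) + 1 = ((k + 2 : ℕ) : ℂ) by push_cast; ring, Complex.norm_natCast]
        push_cast; ring
      have h7 : (0 : ℝ) ≤ k := Nat.cast_nonneg k
      rw [h6, div_le_iff₀ (by positivity), pow_succ, pow_succ]
      have h8 : 0 < r ^ k := by positivity
      have h9 : (4 : ℝ) ≤ ((k : ℝ) + 2) ^ 2 := by nlinarith
      have h10 : 0 < r ^ k * r * r := by positivity
      have e : r ^ 2 / 4 * r ^ k * ((k : ℝ) + 2) ^ 2 = r ^ k * r * r * (((k : ℝ) + 2) ^ 2 / 4) := by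
        ring
      rw [e]
      nlinarith only [hr0, hr1, h9, h10]
    refine h6.trans ?_
    have h7 : (1 - r)⁻¹ ≤ 6 / 5 := by
      rw [inv_le_comm₀ (by linarith only [hr0, hr1]) (by norm_num)]
      norm_num
      linarith only [hr1]
    calc r ^ 2 / 4 * (1 - r)⁻¹ ≤ r ^ 2 / 4 * (6 / 5) := by gcongr
      _ = r ^ 2 * (3 / 10) := by ring
  have h3 : uu x t = DT.Lr |t| x - Real.pi * |t| / 2 := rfl
  rw [h3, h1]
  have e4 : (∑' k : ℕ, q ^ (k + 1) / ((k : ℂ) + 1) ^ 2) = q + s := by
    rw [← h2]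
  rw [e4, Complex.add_im, hqi]
  have e5 : Real.pi * |t| * x - (r * Real.sin (2 * Real.pi * x) + s.im) / (2 * Real.pi) -
      Real.pi * |t| / 2 - (-(Real.pi * |t| / 2) + Real.pi * |t| * x -
      r * Real.sin (2 * Real.pi * x) / (2 * Real.pi)) = -(s.im / (2 * Real.pi)) := by
    field_simp
    ring
  rw [e5, abs_neg, abs_div, abs_of_pos (by positivity : 0 < 2 * Real.pi), div_le_iff₀ (by positivity)]
  have h4 := (Complex.abs_im_le_norm s).trans hsn
  have : r ^ 2 * (3 / 10) ≤ r ^ 2 / 20 * (2 * Real.pi) := by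
    have : 0 < r ^ 2 := by positivity
    nlinarith only [this, hp3]
  linarith only [h4, this]

/-! ### the vertical derivative -/

theorem yy_add_one (x t : ℝ) : yy (x + 1) t = yy x t + Real.pi * sg t := by
  have h := YY_add_one ⟨x, t⟩
  have e : (⟨x, t⟩ : ℂ) + 1 = ⟨x + 1, t⟩ := by
    apply Complex.ext <;> simp
  rw [e] at h
  unfold yy sg
  rw [h]
  simp only
  split_ifs <;> ring

theorem yy_sub_one (x t : ℝ) : yy x t = yy (x - 1) t + Real.pi * sg t := by
  have h := yy_add_one (x - 1) t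
  rwa [sub_add_cancel] at h

theorem yy_conj (x t : ℝ) : yy x (-t) = -yy x t := by
  have h := YY_conj ⟨x, t⟩
  have e : starRingEnd ℂ (⟨x, t⟩ : ℂ) = ⟨x, -t⟩ := by
    apply Complex.ext <;> simp
  rw [e] at h
  exact h

theorem yy_one_sub (x t : ℝ) : yy (1 - x) t = -yy x t := by
  have h := YY_one_sub ⟨x, -t⟩
  have e : (1 : ℂ) - (⟨x, -t⟩ : ℂ) = ⟨1 - x, t⟩ := by
    apply Complex.ext <;> simp
  rw [e] at h
  have h2 : yy x (-t) = YY ⟨x, -t⟩ := rfl
  rw [← yy_conj, h2, ← h]
  rfl

theorem yy_lnB {x t : ℝ} (h0 : 0 < x) (h1 : x < 1) : yy x t = -NumI.lnB x t :=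
  YY_lnB (u := ⟨x, t⟩) ⟨h0, h1⟩

theorem yy_zero_left {t : ℝ} (ht : 0 < t) : yy 0 t = -(Real.pi / 2) := by
  have h := YY_it ht
  have e : ((t : ℝ) : ℂ) * Complex.I = ⟨0, t⟩ := by
    apply Complex.ext <;> simp
  rw [e] at h
  exact h

theorem abs_yy_le {x t : ℝ} (h0 : 0 ≤ x) (h1 : x ≤ 1) : |yy x t| ≤ Real.pi / 2 :=
  YY_abs_le (u := ⟨x, t⟩) h0 h1

theorem sg_abs (t : ℝ) : |sg t| ≤ 1 := by
  unfold sg
  split_ifs <;> simp

theorem sg_neg (t : ℝ) : sg (-t) = -sg t := by
  unfold sg
  rcases lt_trichotomy t 0 with h | h | h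
  · rw [if_pos (by linarith only [h]), if_neg (by linarith only [h]), if_pos h]; ring
  · rw [h]; simp
  · rw [if_neg (by linarith only [h]), if_pos (by linarith only [h]), if_pos h]

/-- near `x = 0` -/
theorem yy_near {y t : ℝ} (ht : t ≠ 0) (hy : |y| ≤ 1 / 8) :
    |yy y t + Real.pi / 2 * sg t| ≤ |y| * (4 + 6 / (5 * |t|)) := by
  have hp := Real.pi_pos
  have hp2 := Real.pi_lt_d2
  have hp3 := Real.pi_gt_d2
  have key : ∀ y t : ℝ, 0 < y → y ≤ 1 / 8 → 0 < t →
      |yy y t + Real.pi / 2| ≤ y * (4 + 6 / (5 * t)) := by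
    intro y t h0 h1 ht
    rw [yy_lnB h0 (by linarith only [h0, h1])]
    unfold NumI.lnB
    have hs : 0 < Real.sin (Real.pi * y) := by
      apply Real.sin_pos_of_pos_of_lt_pi (by positivity)
      nlinarith only [hp3, h0, h1, hp]
    have hs1 : Real.sin (Real.pi * y) ≤ Real.pi * y := Real.sin_le (by positivity)
    have hc : 9 / 10 ≤ Real.cos (Real.pi * y) := by
      have h2 := Real.one_sub_sq_div_two_le_cos (x := Real.pi * y)
      have h3 : Real.pi * y ≤ 4 / 10 := by nlinarith only [hp2, h0, h1, hp]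
      have h4 : 0 ≤ Real.pi * y := by positivity
      nlinarith only [h1, h2, h3, h0, hs, hs1]
    have hsh : 0 < Real.sinh (Real.pi * t) := Real.sinh_pos_iff.2 (by positivity)
    have hch : 0 < Real.cosh (Real.pi * t) := Real.cosh_pos _
    set z := Real.sin (Real.pi * y) * Real.cosh (Real.pi * t) /
      (Real.cos (Real.pi * y) * Real.sinh (Real.pi * t)) with hz
    have hc0 : 0 < Real.cos (Real.pi * y) := by linarith only [h0, h1, hc]
    have hz0 : 0 < z := by positivity
    have e1 : Real.cos (Real.pi * y) * Real.sinh (Real.pi * t) /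
        (Real.sin (Real.pi * y) * Real.cosh (Real.pi * t)) = z⁻¹ := by
      rw [hz, inv_div]
    rw [e1, Real.arctan_inv_of_pos hz0]
    have e2 : -(Real.pi / 2 - Real.arctan z) + Real.pi / 2 = Real.arctan z := by ring
    rw [e2, abs_of_nonneg (Real.arctan_nonneg.2 hz0.le)]
    have h5 : Real.arctan z ≤ z := by
      have h50 := Real.arctan_lt_pi_div_two z
      have h51 := Real.le_tan (Real.arctan_nonneg.2 hz0.le) h50
      rwa [Real.tan_arctan] at h51
    refine h5.trans ?_
    -- cosh ≤ sinh + sinh / (π t)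
    have h6 : Real.cosh (Real.pi * t) ≤ Real.sinh (Real.pi * t) * (1 + 1 / (Real.pi * t)) := by
      have h7 : Real.cosh (Real.pi * t) - Real.sinh (Real.pi * t) = Real.exp (-(Real.pi * t)) :=
        Real.cosh_sub_sinh _
      have h8 : Real.exp (-(Real.pi * t)) ≤ 1 := Real.exp_le_one_iff.2 (by
        have : 0 < Real.pi * t := by positivity
        linarith only [this])
      have h9 : Real.pi * t ≤ Real.sinh (Real.pi * t) := Real.self_le_sinh_iff.2 (by positivity)
      have h10 : 1 ≤ Real.sinh (Real.pi * t) * (1 / (Real.pi * t)) := by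
        rw [mul_one_div, le_div_iff₀ (by positivity)]
        linarith only [h9]
      nlinarith only [h7, h8, h10]
    rw [hz, div_le_iff₀ (by positivity)]
    calc Real.sin (Real.pi * y) * Real.cosh (Real.pi * t) ≤
        (Real.pi * y) * (Real.sinh (Real.pi * t) * (1 + 1 / (Real.pi * t))) := by gcongr
      _ = y * (Real.pi + 1 / t) * Real.sinh (Real.pi * t) := by
        field_simp
      _ ≤ y * (4 + 6 / (5 * t)) * (9 / 10 * Real.sinh (Real.pi * t)) := by
        have h11 : Real.pi + 1 / t ≤ (4 + 6 / (5 * t)) * (9 / 10) := by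
          have e3 : 6 / (5 * t) = 6 / 5 * (1 / t) := by field_simp
          rw [e3]
          have : 0 < 1 / t := by positivity
          linarith only [hp2, h0, h1, this]
        have h12 : y * (Real.pi + 1 / t) * Real.sinh (Real.pi * t) ≤
            y * ((4 + 6 / (5 * t)) * (9 / 10)) * Real.sinh (Real.pi * t) := by gcongr
        refine h12.trans (le_of_eq ?_)
        ring
      _ ≤ y * (4 + 6 / (5 * t)) * (Real.cos (Real.pi * y) * Real.sinh (Real.pi * t)) := by gcongr
  have key2 : ∀ y t : ℝ, |y| ≤ 1 / 8 → 0 < t →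
      |yy y t + Real.pi / 2| ≤ |y| * (4 + 6 / (5 * t)) := by
    intro y t h1 ht
    rcases lt_trichotomy y 0 with h0 | h0 | h0
    · have h2 := key (-y) t (by linarith only [h0]) (by rw [abs_of_neg h0] at h1; exact h1) ht
      have h3 := yy_one_sub (-y) t
      rw [show (1 : ℝ) - -y = y + 1 by ring, yy_add_one] at h3
      have h4 : sg t = 1 := if_pos ht
      rw [h4] at h3
      rw [abs_of_neg h0]
      rw [← abs_neg]
      convert h2 using 2
      linarith only [h3]
    · rw [h0, yy_zero_left ht]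
      simp
    · rw [abs_of_pos h0]
      exact key y t h0 (by rwa [abs_of_pos h0] at h1) ht
  rcases lt_or_gt_of_ne ht with h | h
  · have h2 := key2 y (-t) hy (by linarith only [h])
    rw [yy_conj] at h2
    have h3 : sg t = -1 := by unfold sg; rw [if_neg (by linarith only [h]), if_pos h]
    rw [h3, abs_of_neg h, ← abs_neg]
    convert h2 using 2
    ring
  · have h2 := key2 y t hy h
    have h3 : sg t = 1 := if_pos h
    rw [h3, abs_of_pos h]
    convert h2 using 2
    ring

theorem yy_nonpos {x t : ℝ} (h0 : 0 ≤ x) (h1 : x ≤ 1 / 2) (ht : 0 < t) : yy x t ≤ 0 := by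
  have hp := Real.pi_pos
  rcases h0.eq_or_lt with h0 | h0
  · rw [← h0, yy_zero_left ht]
    linarith only [hp]
  · rw [yy_lnB h0 (by linarith only [h1, h0])]
    unfold NumI.lnB
    rw [neg_nonpos, Real.arctan_nonneg]
    have h2 : 0 ≤ Real.sinh (Real.pi * t) := Real.sinh_nonneg_iff.2 (by positivity)
    have h3 : 0 ≤ Real.cos (Real.pi * x) := by
      apply Real.cos_nonneg_of_neg_pi_div_two_le_of_le
      · have : 0 ≤ Real.pi * x := by positivity
        linarith only [hp, this]
      · nlinarith only [h1, hp]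
    have h4 : 0 ≤ Real.sin (Real.pi * x) := by
      apply Real.sin_nonneg_of_nonneg_of_le_pi (by positivity)
      nlinarith only [hp, h1]
    have h5 := Real.cosh_pos (Real.pi * t)
    positivity

/-- in `[-1/2, 3/2]` -/
theorem abs_yy_le_one_pi {x t : ℝ} (h0 : -(1 / 2) ≤ x) (h1 : x ≤ 3 / 2) : |yy x t| ≤ Real.pi := by
  have hp := Real.pi_pos
  have key : ∀ x t : ℝ, 0 < t → 0 ≤ x → x ≤ 1 / 2 → |yy x t + Real.pi| ≤ Real.pi := by
    intro x t ht h0 h1
    have h2 := abs_yy_le (x := x) (t := t) h0 (by linarith only [h1])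
    have h3 := yy_nonpos h0 h1 ht
    rw [abs_le] at h2 ⊢
    constructor <;> linarith only [hp, h2, h3, h2.1]
  have key2 : ∀ x t : ℝ, 0 < t → 0 ≤ x → x ≤ 3 / 2 → |yy x t| ≤ Real.pi := by
    intro x t ht h0 h1
    rcases le_or_gt x 1 with h4 | h4
    · have := abs_yy_le (x := x) (t := t) h0 h4
      linarith only [hp, this]
    · rw [yy_sub_one, show sg t = 1 from if_pos ht, mul_one]
      exact key _ _ ht (by linarith only [h4]) (by linarith only [h1])
  have key3 : ∀ x t : ℝ, 0 < t → -(1 / 2) ≤ x → x ≤ 3 / 2 → |yy x t| ≤ Real.pi := by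
    intro x t ht h0 h1
    rcases le_or_gt 0 x with h4 | h4
    · exact key2 x t ht h4 h1
    · have h5 := yy_one_sub (x := 1 - x) (t := t)
      rw [show 1 - (1 - x) = x by ring] at h5
      rw [h5, abs_neg]
      exact key2 _ _ ht (by linarith only [h0, h4]) (by linarith only [h0])
  rcases lt_trichotomy t 0 with h | h | h
  · have := key3 x (-t) (by linarith only [h]) h0 h1
    rwa [yy_conj, abs_neg] at this
  · have h2 : yy x t = 0 := by
      have h3 := yy_conj x t
      rw [h, neg_zero] at h3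
      rw [h]
      linarith only [h3]
    rw [h2, abs_zero]
    exact hp.le
  · exact key3 x t h h0 h1

/-- everywhere in `(-1, 2)` -/
theorem abs_yy_le_pi {x t : ℝ} (h0 : -1 ≤ x) (h1 : x ≤ 2) : |yy x t| ≤ 3 / 2 * Real.pi := by
  have hp := Real.pi_pos
  have hs := sg_abs t
  have hps : |Real.pi * sg t| ≤ Real.pi := by
    rw [abs_mul, abs_of_pos hp]
    nlinarith only [hp, hs]
  rcases le_or_gt x 0 with h2 | h2
  · have h3 := abs_yy_le (x := x + 1) (t := t) (by linarith only [h0]) (by linarith only [h2])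
    rw [yy_add_one] at h3
    rw [abs_le] at *
    constructor <;> linarith only [hps, h3, h3.1, h3.2, hps.1, hps.2]
  · rcases le_or_gt x 1 with h4 | h4
    · have := abs_yy_le (x := x) (t := t) h2.le h4
      linarith only [hp, this]
    · have h3 := abs_yy_le (x := x - 1) (t := t) (by linarith only [h4]) (by linarith only [h1])
      rw [yy_sub_one]
      rw [abs_le] at *
      constructor <;> linarith only [hps, h3, h3.1, h3.2, hps.1, hps.2]

end Pool.Agent.Work.NumX
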