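import Pool.Agent.Work.NumU.GenB
import Pool.Agent.Work.NumX.Math

/-!
# Numerics of `UU` and `YY` at every real part: affine forms

* `uxA` : affine form of `UU (x + i t)`; for `|t| ≥ 3/10` by the first term of the series (every
  real `x`), otherwise as `uwA` with a better value near the integers.
* `ywA` : affine form of the vertical derivative `YY (x + i t)`.
-/

namespace Pool.Agent.Work.NumG

open NumI (A G V R3 DR DR_pos DN_cast ndiv_le lt_ndiv)
open NumU (uu uu_one_sub uu_add_one uu_neg uuA uuA_spec nadd_eq nmul_eq nsub_eq ndiv_eq')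
open NumX (yy sg)

/-! ### bounds -/

/-- lower bound of `|t|` -/
def tLo (p q s : ℕ) : ℕ := Nat.add (Nat.sub p (Nat.add q s)) (Nat.sub q (Nat.add p s))

theorem tLo_spec {p q s : ℕ} {X : ℝ} (h : |X - ((p : ℝ) - q)| ≤ s) : ((tLo p q s : ℕ) : ℝ) ≤ |X| := by
  change ((p - (q + s) + (q - (p + s)) : ℕ) : ℝ) ≤ |X|
  rw [abs_le] at h
  rcases le_total p (q + s) with h1 | h1
  · rcases le_total q (p + s) with h2 | h2
    · rw [Nat.sub_eq_zero_of_le h1, Nat.sub_eq_zero_of_le h2]
      simpa using abs_nonneg X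
    · rw [Nat.sub_eq_zero_of_le h1, zero_add, Nat.cast_sub h2]
      push_cast
      have := neg_le_abs X
      linarith only [h, this, h.2]
  · have h2 : q ≤ p + s := by omega
    rw [Nat.sub_eq_zero_of_le h2, add_zero, Nat.cast_sub h1]
    push_cast
    have := le_abs_self X
    linarith only [h, this, h.1]

/-- the sign of `t` -/
def sgB (p q s : ℕ) : Option Bool :=
  cond (Nat.ble (Nat.add (Nat.add q s) 1) p) (some true)
    (cond (Nat.ble (Nat.add (Nat.add p s) 1) q) (some false) none)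

theorem sgB_spec {p q s : ℕ} {t : ℝ} (h : |t * DR - ((p : ℝ) - q)| ≤ s) {b : Bool}
    (hb : sgB p q s = some b) : sg t = cond b 1 (-1) := by
  have hD := DR_pos
  rw [abs_le] at h
  unfold sgB at hb
  rcases h1 : Nat.ble (Nat.add (Nat.add q s) 1) p with _ | _
  · rw [h1, cond_false] at hb
    rcases h2 : Nat.ble (Nat.add (Nat.add p s) 1) q with _ | _
    · rw [h2, cond_false] at hb
      exact absurd hb (by simp)
    · rw [h2, cond_true] at hb
      obtain rfl := Option.some.inj hb
      have h3 : ((p + s + 1 : ℕ) : ℝ) ≤ q := by exact_mod_cast Nat.le_of_ble_eq_true h2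
      push_cast at h3
      have h4 : t < 0 := by
        by_contra h5
        have := mul_nonneg (not_lt.1 h5) hD.le
        linarith only [h, h3, this, h.2]
      simp only [cond_false]
      unfold sg
      rw [if_neg (by linarith only [h4]), if_pos h4]
  · rw [h1, cond_true] at hb
    obtain rfl := Option.some.inj hb
    have h3 : ((q + s + 1 : ℕ) : ℝ) ≤ p := by exact_mod_cast Nat.le_of_ble_eq_true h1
    push_cast at h3
    have h4 : 0 < t := by
      by_contra h5
      have := mul_nonpos_of_nonpos_of_nonneg (not_lt.1 h5) hD.le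
      linarith only [h, h3, this, h.1]
    simp only [cond_true]
    unfold sg
    rw [if_pos h4]

/-- error of the series -/
def farE (h : ℕ) : ℕ := Nat.add (Nat.div (Nat.mul h h) 1374389534720) 1

theorem farE_spec {h : ℕ} {e : ℝ} (h0 : 0 ≤ e) (h1 : e * DR ≤ h) : e ^ 2 / 20 * DR ≤ farE h := by
  have hD := DR_pos
  have h2 := lt_ndiv (h * h) (b := 1374389534720) (by norm_num)
  change _ ≤ ((h * h / 1374389534720 + 1 : ℕ) : ℝ)
  rw [Nat.cast_mul] at h2
  have e1 : ((1374389534720 : ℕ) : ℝ) = 20 * DR := by unfold DR; norm_num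
  rw [e1] at h2
  push_cast
  refine le_trans ?_ h2.le
  rw [le_div_iff₀ (by positivity)]
  have h3 : (e * DR) * (e * DR) ≤ h * h := mul_le_mul h1 h1 (by positivity) (by positivity)
  calc e ^ 2 / 20 * DR * (20 * DR) = (e * DR) * (e * DR) := by ring
    _ ≤ _ := h3

/-- error near an integer -/
def nearE (y t : ℕ) : ℕ := Nat.add (Nat.div (Nat.mul (Nat.mul y y) y) (Nat.mul 2 (Nat.mul t t))) 1

theorem nearE_spec {ym tm : ℕ} {y t : ℝ} (h0 : 0 < tm) (h1 : |y| * DR ≤ ym) (h2 : tm ≤ |t| * DR) :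
    |y| ^ 3 / (2 * t ^ 2) * DR ≤ nearE ym tm := by
  have hD := DR_pos
  have h0' : (0 : ℝ) < tm := by exact_mod_cast h0
  have ht : 0 < |t| := by
    by_contra h3
    have := mul_nonpos_of_nonpos_of_nonneg (not_lt.1 h3) hD.le
    linarith only [h2, h0', this]
  have h3 := lt_ndiv (ym * ym * ym) (b := 2 * (tm * tm)) (by positivity)
  change _ ≤ ((ym * ym * ym / (2 * (tm * tm)) + 1 : ℕ) : ℝ)
  push_cast at h3 ⊢
  refine le_trans ?_ h3.le
  rw [← sq_abs t, div_mul_eq_mul_div, div_le_div_iff₀ (by positivity) (by positivity)]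
  have a1 : (|y| * DR) * (|y| * DR) ≤ ym * ym := mul_le_mul h1 h1 (by positivity) (by positivity)
  have a2 : (|y| * DR) * (|y| * DR) * (|y| * DR) ≤ ym * ym * ym :=
    mul_le_mul a1 h1 (by positivity) (by positivity)
  have a3 : (tm : ℝ) * tm ≤ (|t| * DR) * (|t| * DR) := mul_le_mul h2 h2 (by positivity) (by positivity)
  have a4 : (|y| * DR) * (|y| * DR) * (|y| * DR) * (2 * (tm * tm)) ≤
      ym * ym * ym * (2 * ((|t| * DR) * (|t| * DR))) :=
    mul_le_mul a2 (by linarith only [a3]) (by positivity) (by positivity)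
  have e1 : |y| ^ 3 * DR * (2 * (tm * tm)) * (DR * DR) =
      (|y| * DR) * (|y| * DR) * (|y| * DR) * (2 * (tm * tm)) := by ring
  have e2 : (ym : ℝ) * ym * ym * (2 * |t| ^ 2) * (DR * DR) =
      ym * ym * ym * (2 * ((|t| * DR) * (|t| * DR))) := by ring
  rw [← e1, ← e2] at a4
  exact le_of_mul_le_mul_right a4 (by positivity)

/-- error of the derivative near an integer -/
def ynE (y t : ℕ) : ℕ := Nat.add (Nat.mul 4 y) (Nat.add (Nat.div (Nat.mul (Nat.mul 6 y) 68719476736) (Nat.mul 5 t)) 1)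

theorem ynE_spec {ym tm : ℕ} {y t : ℝ} (h0 : 0 < tm) (h1 : |y| * DR ≤ ym) (h2 : tm ≤ |t| * DR) :
    |y| * (4 + 6 / (5 * |t|)) * DR ≤ ynE ym tm := by
  have hD := DR_pos
  have h0' : (0 : ℝ) < tm := by exact_mod_cast h0
  have ht : 0 < |t| := by
    by_contra h3
    have := mul_nonpos_of_nonpos_of_nonneg (not_lt.1 h3) hD.le
    linarith only [h2, h0', this]
  have h3 := lt_ndiv (6 * ym * 68719476736) (b := 5 * tm) (by positivity)
  change _ ≤ ((4 * ym + (6 * ym * 68719476736 / (5 * tm) + 1) : ℕ) : ℝ)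
  push_cast at h3 ⊢
  have e1 : (68719476736 : ℝ) = DR := by unfold DR; norm_num
  rw [e1] at h3
  have a1 : |y| * DR * (6 / (5 * |t|)) ≤ 6 * ym * DR / (5 * tm) := by
    rw [mul_div_assoc', div_le_div_iff₀ (by positivity) (by positivity)]
    have b1 : |y| * DR * (6 * (5 * tm)) ≤ ym * (6 * (5 * tm)) :=
      mul_le_mul_of_nonneg_right h1 (by positivity)
    have b2 : (ym : ℝ) * (6 * (5 * tm)) ≤ ym * (6 * (5 * (|t| * DR))) :=
      mul_le_mul_of_nonneg_left (by linarith only [h2]) (by positivity)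
    nlinarith only [b1, b2]
  have e2 : |y| * (4 + 6 / (5 * |t|)) * DR = 4 * (|y| * DR) + |y| * DR * (6 / (5 * |t|)) := by ring
  rw [e2]
  linarith only [h1, h3, a1]

/-- add an error -/
theorem Encl_err {v : A} {ε : ℕ → ℝ} {x y : ℝ} {k : ℕ} (h : v.Encl ε y)
    (hk : |x - y| * DR ≤ k) : A.Encl ⟨v.p, v.q, Nat.add v.r k, v.g⟩ ε x := by
  have hD := DR_pos
  unfold A.Encl at h ⊢
  simp only
  change _ ≤ ((v.r + k : ℕ) : ℝ)
  push_cast
  have e1 : |(x - y) * DR| ≤ k := by rw [abs_mul, abs_of_pos hD]; exact hk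
  have e2 : x * DR - ((v.p : ℝ) - v.q + v.g.ev ε) =
      (y * DR - ((v.p : ℝ) - v.q + v.g.ev ε)) + (x - y) * DR := by ring
  rw [e2]
  exact (abs_add_le _ _).trans (add_le_add h e1)

/-- `1 / (2 π)` -/
def ip2 : A := ⟨10937044409, 0, 2, G.nil⟩

theorem ip2_real : |1 / (2 * Real.pi) * DR - 10937044409| ≤ 2 := by
  have h3 := Real.pi_gt_d20
  have h4 := Real.pi_lt_d20
  have hp := Real.pi_pos
  have e : 1 / (2 * Real.pi) * DR = DR / (2 * Real.pi) := by ring
  rw [e, abs_le]
  unfold DR
  constructor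
  · rw [le_sub_iff_add_le, le_div_iff₀ (by positivity)]
    linarith only [h3, h4]
  · rw [sub_le_iff_le_add, div_le_iff₀ (by positivity)]
    linarith only [h3, h4]

theorem ip2_spec (ε : ℕ → ℝ) : ip2.Encl ε (1 / (2 * Real.pi)) := by
  change |1 / (2 * Real.pi) * DR - (((10937044409 : ℕ) : ℝ) - ((0 : ℕ) : ℝ) + 0)| ≤ ((2 : ℕ) : ℝ)
  have := ip2_real
  push_cast
  simpa using this

/-! ### `|t| ≥ 3/10` -/

/-- first term of the series; `w = π |t|` -/
def farA (X w : A) : Option A :=
  match A.exp (A.neg (A.add w w)) with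
  | none => none
  | some e =>
    let v := A.sub (A.mul w (A.sub X (A.cst (Int.ofNat 1) 2))) (A.mul (A.mul e (A.sinPi (A.add X X))) ip2)
    some ⟨v.p, v.q, Nat.add v.r (farE (Nat.sub (Nat.add e.p e.tot) e.q)), v.g⟩

theorem exp_hi {e : A} {ε : ℕ → ℝ} {x : ℝ} (hε : ∀ i, |ε i| ≤ 1) (h : e.Encl ε x) :
    x * DR ≤ ((Nat.sub (Nat.add e.p e.tot) e.q : ℕ) : ℝ) := by
  have h1 := (abs_le.1 (h.tot hε)).2
  change x * DR ≤ ((e.p + e.tot - e.q : ℕ) : ℝ)
  have h2 : ((e.p + e.tot : ℕ) : ℝ) ≤ ((e.p + e.tot - e.q : ℕ) : ℝ) + e.q := by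
    have h3 : e.p + e.tot ≤ (e.p + e.tot - e.q) + e.q := by omega
    exact_mod_cast h3
  push_cast at h2 ⊢
  linarith only [h1, h2]

theorem far_val {x t e : ℝ} (he : e = Real.exp (-(Real.pi * |t| + Real.pi * |t|)))
    (ht : 3 / 10 ≤ |t|) : |uu x t - (Real.pi * |t| * (x - 1 / 2) -
      e * Real.sin (Real.pi * (x + x)) * (1 / (2 * Real.pi)))| ≤ e ^ 2 / 20 := by
  have h := NumX.far (x := x) ht
  have e1 : Real.exp (-(2 * Real.pi * |t|)) = e := by rw [he]; congr 1; ring
  rw [e1] at h
  have e2 : Real.sin (Real.pi * (x + x)) = Real.sin (2 * Real.pi * x) := by congr 1; ring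
  rw [e2]
  refine le_trans (le_of_eq ?_) h
  congr 1
  ring

theorem farA_spec {X w c : A} {ε : ℕ → ℝ} {x t : ℝ} (hε : ∀ i, |ε i| ≤ 1) (hx : X.Encl ε x)
    (hw : w.Encl ε (Real.pi * |t|)) (ht : 3 / 10 ≤ |t|) (h : farA X w = some c) :
    c.Encl ε (uu x t) := by
  have hD := DR_pos
  unfold farA at h
  rcases he : A.exp (A.neg (A.add w w)) with _ | e
  · rw [he] at h; exact absurd h (by simp)
  rw [he] at h
  simp only [Option.some.injEq] at h
  have h1 := (hw.add hw).neg.exp hε he
  have h2 := (hx.add hx).sinPi hε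
  have h3 := A.Encl_cst (Int.ofNat 1) 2 ε
  have e3 : (((Int.ofNat 1 : ℤ) : ℝ) / ((2 : ℕ) : ℝ)) = 1 / 2 := by simp
  rw [e3] at h3
  have h4 := (hw.mul hε (hx.sub h3)).sub ((h1.mul hε h2).mul hε (ip2_spec ε))
  rw [← h]
  refine Encl_err h4 ?_
  refine le_trans (mul_le_mul_of_nonneg_right (far_val rfl ht) hD.le) ?_
  exact farE_spec (Real.exp_pos _).le (exp_hi hε h1)

/-! ### near an integer, `t ≠ 0` -/

/-- `- w / 2 + x log (2 sinh w)`; `w = π |t|` -/
def nearA (X T w : A) : Option A :=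
  let y := Nat.add (Nat.add X.p X.q) X.tot
  let t := tLo T.p T.q T.tot
  cond (Nat.ble y 34359738368) (cond (Nat.ble 1 t)
    (match A.hyp false w with
      | none => none
      | some s => match A.log (A.add s s) with
        | none => none
        | some l =>
          let v := A.sub (A.mul X l) (A.mul (A.cst (Int.ofNat 1) 2) w)
          some ⟨v.p, v.q, Nat.add v.r (nearE y t), v.g⟩) none) none

theorem nearA_spec {X T w c : A} {ε : ℕ → ℝ} {x t : ℝ} (hε : ∀ i, |ε i| ≤ 1) (hx : X.Encl ε x)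
    (ht : T.Encl ε t) (hw : w.Encl ε (Real.pi * |t|)) (h : nearA X T w = some c) :
    c.Encl ε (uu x t) := by
  have hD := DR_pos
  unfold nearA at h
  simp only at h
  obtain ⟨h1, h⟩ := NumU.cond_some h
  obtain ⟨h2, h⟩ := NumU.cond_some h
  have a1 : ((Nat.add (Nat.add X.p X.q) X.tot : ℕ) : ℝ) ≤ ((34359738368 : ℕ) : ℝ) := by
    exact_mod_cast Nat.le_of_ble_eq_true h1
  have a2 := abs_of_tot hε hx
  have a3 : |x| ≤ 1 / 2 := by
    have e : ((34359738368 : ℕ) : ℝ) = 1 / 2 * DR := by unfold DR; norm_num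
    rw [e] at a1
    exact le_of_mul_le_mul_right (a2.trans a1) hD
  have a4 : 0 < tLo T.p T.q T.tot := Nat.le_of_ble_eq_true h2
  have a5 := tLo_spec (ht.tot hε)
  rw [abs_mul, abs_of_pos hD] at a5
  have a6 : t ≠ 0 := by
    rintro rfl
    have : (0 : ℝ) < ((tLo T.p T.q T.tot : ℕ) : ℝ) := by exact_mod_cast a4
    rw [abs_zero, zero_mul] at a5
    linarith only [a5, this]
  rcases hs : A.hyp false w with _ | s
  · rw [hs] at h; exact absurd h (by simp)
  rw [hs] at h
  simp only at h
  rcases hl : A.log (A.add s s) with _ | l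
  · rw [hl] at h; exact absurd h (by simp)
  rw [hl] at h
  simp only [Option.some.injEq] at h
  have b1 := hw.hyp hε hs
  have b2 := (b1.add b1).log hε hl
  have e3 : (((Int.ofNat 1 : ℤ) : ℝ) / ((2 : ℕ) : ℝ)) = 1 / 2 := by simp
  have b3 := A.Encl_cst (Int.ofNat 1) 2 ε
  rw [e3] at b3
  have b4 := (hx.mul hε b2).sub (b3.mul hε hw)
  rw [← h]
  refine Encl_err b4 ?_
  refine le_trans ?_ (nearE_spec a4 a2 a5)
  refine mul_le_mul_of_nonneg_right ?_ hD.le
  refine le_trans (le_of_eq ?_) (NumX.near a6 (lt_of_le_of_lt a3 (by norm_num)))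
  congr 1
  simp only [Bool.cond_false]
  rw [← two_mul]
  ring

/-- the one with the smaller error -/
def minA (s t : Option A) : Option A := match s with
  | none => t
  | some u => match t with
    | none => some u
    | some v => cond (Nat.ble u.r v.r) (some u) (some v)

theorem minA_spec {s t : Option A} {c : A} (h : minA s t = some c) : s = some c ∨ t = some c := by
  unfold minA at h
  rcases s with _ | u
  · exact Or.inr h
  · simp only at h
    rcases t with _ | v
    · exact Or.inl h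
    · simp only at h
      rcases hb : Nat.ble u.r v.r with _ | _
      · rw [hb, cond_false] at h; exact Or.inr h
      · rw [hb, cond_true] at h; exact Or.inl h

/-- `UU (x + i t)` for every real `x` -/
def uxA (a b : A) : Option A :=
  let X := a.nf
  let T := b.nf
  let w := A.mul A.pi (absA T)
  cond (Nat.ble 20615843021 (tLo T.p T.q T.tot)) (farA X w)
    (cond (Nat.beq X.q 0)
      (let n := Nat.div X.p 68719476736
       let m := Nat.div (Nat.add X.p 34359738368) 68719476736
       pickA (mapA (fun u => addK n u w) (uuA (shD n X) T))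
        (mapA (fun u => addK m u w) (minA (nearA (shD m X).nf T w) (strA (shD m X).nf T w))))
      (let n := Nat.div (Nat.add X.q 68719476735) 68719476736
       let m := Nat.div (Nat.add X.q 34359738368) 68719476736
       pickA (mapA (fun u => subK n u w) (uuA (shU n X) T))
        (mapA (fun u => subK m u w) (minA (nearA (shU m X).nf T w) (strA (shU m X).nf T w)))))

theorem ns_spec {X T w c : A} {ε : ℕ → ℝ} {x t : ℝ} (hε : ∀ i, |ε i| ≤ 1) (hx : X.Encl ε x)
    (ht : T.Encl ε t) (hw : w.Encl ε (Real.pi * |t|))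
    (h : minA (nearA X T w) (strA X T w) = some c) : c.Encl ε (uu x t) := by
  rcases minA_spec h with h | h
  · exact nearA_spec hε hx ht hw h
  · exact strA_spec hε hx ht hw h

theorem far_ok {p q s : ℕ} {t : ℝ} (h : Nat.ble 20615843021 (tLo p q s) = true)
    (ht : |t * DR - ((p : ℝ) - q)| ≤ s) : 3 / 10 ≤ |t| := by
  have hD := DR_pos
  have h1 := tLo_spec ht
  rw [abs_mul, abs_of_pos hD] at h1
  have h2 : ((20615843021 : ℕ) : ℝ) ≤ ((tLo p q s : ℕ) : ℝ) := by
    exact_mod_cast Nat.le_of_ble_eq_true h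
  have h3 : 3 / 10 * DR ≤ |t| * DR := by
    refine le_trans ?_ (h2.trans h1)
    unfold DR
    norm_num
  exact le_of_mul_le_mul_right h3 hD

theorem uxA_spec {a b c : A} {ε : ℕ → ℝ} {x t : ℝ} (hε : ∀ i, |ε i| ≤ 1) (hx : a.Encl ε x)
    (ht : b.Encl ε t) (h : uxA a b = some c) : c.Encl ε (uu x t) := by
  unfold uxA at h
  simp only at h
  have hX := hx.nf
  have hT := ht.nf
  have hw := (A.Encl_pi ε).mul hε (absA_spec hε hT)
  rcases h0 : Nat.ble 20615843021 (tLo b.nf.p b.nf.q b.nf.tot) with _ | _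
  swap
  · rw [h0, cond_true] at h
    exact farA_spec hε hX hw (far_ok h0 (hT.tot hε)) h
  rw [h0, cond_false] at h
  have eD : ∀ n : ℕ, uu x t = uu (x - n) t + n * (Real.pi * |t|) := by
    intro n
    rw [← uu_add_nat, sub_add_cancel]
  have eU : ∀ n : ℕ, uu x t = uu (x + n) t - n * (Real.pi * |t|) := by
    intro n
    rw [uu_add_nat]
    ring
  rcases h1 : Nat.beq a.nf.q 0 with _ | _
  · rw [h1, cond_false] at h
    rcases pickA_spec h with h | h
    · obtain ⟨u, hu, rfl⟩ := mapA_some h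
      rw [eU (Nat.div (Nat.add a.nf.q 68719476735) 68719476736)]
      exact subK_spec hε (uuA_spec hε (shU_spec hX _) hT hu) hw _
    · obtain ⟨u, hu, rfl⟩ := mapA_some h
      rw [eU (Nat.div (Nat.add a.nf.q 34359738368) 68719476736)]
      exact subK_spec hε (ns_spec hε (shU_spec hX _).nf hT hw hu) hw _
  · rw [h1, cond_true] at h
    rcases pickA_spec h with h | h
    · obtain ⟨u, hu, rfl⟩ := mapA_some h
      rw [eD (Nat.div a.nf.p 68719476736)]
      exact addK_spec hε (uuA_spec hε (shD_spec hX _) hT hu) hw _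
    · obtain ⟨u, hu, rfl⟩ := mapA_some h
      rw [eD (Nat.div (Nat.add a.nf.p 34359738368) 68719476736)]
      exact addK_spec hε (ns_spec hε (shD_spec hX _).nf hT hw hu) hw _

/-! ### the vertical derivative -/

theorem yy_add_nat (x t : ℝ) (n : ℕ) : yy (x + n) t = yy x t + n * (Real.pi * sg t) := by
  induction n with
  | zero => simp
  | succ n ih =>
    rw [Nat.cast_add, Nat.cast_one, ← add_assoc, NumX.yy_add_one, ih]
    ring

/-- `v + n π sign t` -/
def addS (n : ℕ) (s : Option Bool) (v : A) : Option A :=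
  cond (Nat.beq n 0) (some v) (match s with
    | none => none
    | some b => cond b (some (A.add v (A.mul (A.cst (Int.ofNat n) 1) A.pi)))
      (some (A.sub v (A.mul (A.cst (Int.ofNat n) 1) A.pi))))

theorem addS_spec {n : ℕ} {s : Option Bool} {v c : A} {ε : ℕ → ℝ} {y t : ℝ}
    (hε : ∀ i, |ε i| ≤ 1) (hs : ∀ b, s = some b → sg t = cond b 1 (-1)) (hv : v.Encl ε y)
    (h : addS n s v = some c) : c.Encl ε (y + n * (Real.pi * sg t)) := by
  unfold addS at h
  rcases h1 : Nat.beq n 0 with _ | _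
  · rw [h1, cond_false] at h
    rcases s with _ | b
    · exact absurd h (by simp)
    · simp only at h
      rw [hs b rfl]
      have h2 := A.Encl_cst (Int.ofNat n) 1 ε
      have e : (((Int.ofNat n : ℤ) : ℝ) / ((1 : ℕ) : ℝ)) = n := by simp
      rw [e] at h2
      have h3 := h2.mul hε (A.Encl_pi ε)
      rcases b with _ | _
      · rw [cond_false] at h ⊢
        obtain rfl := Option.some.inj h
        have := hv.sub h3
        have e2 : y + n * (Real.pi * -1) = y - n * Real.pi := by ring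
        rw [e2]
        exact this
      · rw [cond_true] at h ⊢
        obtain rfl := Option.some.inj h
        rw [mul_one]
        exact hv.add h3
  · have h0 : n = 0 := Nat.eq_of_beq_eq_true h1
    subst h0
    rw [h1, cond_true] at h
    obtain rfl := Option.some.inj h
    simpa using hv

/-- `v - n π sign t` -/
def subS (n : ℕ) (s : Option Bool) (v : A) : Option A :=
  cond (Nat.beq n 0) (some v) (match s with
    | none => none
    | some b => cond b (some (A.sub v (A.mul (A.cst (Int.ofNat n) 1) A.pi)))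
      (some (A.add v (A.mul (A.cst (Int.ofNat n) 1) A.pi))))

theorem subS_spec {n : ℕ} {s : Option Bool} {v c : A} {ε : ℕ → ℝ} {y t : ℝ}
    (hε : ∀ i, |ε i| ≤ 1) (hs : ∀ b, s = some b → sg t = cond b 1 (-1)) (hv : v.Encl ε y)
    (h : subS n s v = some c) : c.Encl ε (y - n * (Real.pi * sg t)) := by
  unfold subS at h
  rcases h1 : Nat.beq n 0 with _ | _
  · rw [h1, cond_false] at h
    rcases s with _ | b
    · exact absurd h (by simp)
    · simp only at h
      rw [hs b rfl]
      have h2 := A.Encl_cst (Int.ofNat n) 1 ε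
      have e : (((Int.ofNat n : ℤ) : ℝ) / ((1 : ℕ) : ℝ)) = n := by simp
      rw [e] at h2
      have h3 := h2.mul hε (A.Encl_pi ε)
      rcases b with _ | _
      · rw [cond_false] at h ⊢
        obtain rfl := Option.some.inj h
        have := hv.add h3
        have e2 : y - n * (Real.pi * -1) = y + n * Real.pi := by ring
        rw [e2]
        exact this
      · rw [cond_true] at h ⊢
        obtain rfl := Option.some.inj h
        rw [mul_one]
        exact hv.sub h3
  · have h0 : n = 0 := Nat.eq_of_beq_eq_true h1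
    subst h0
    rw [h1, cond_true] at h
    obtain rfl := Option.some.inj h
    simpa using hv

/-- inside `(0, 1)` -/
def ycA (X T : A) : Option A :=
  cond (Nat.ble (Nat.add (Nat.add X.q X.tot) 1) X.p)
    (cond (Nat.ble (Nat.add (Nat.add X.p X.tot) 1) (Nat.add 68719476736 X.q))
      (mapA A.neg (A.lnB X T)) none) none

theorem ycA_spec {X T c : A} {ε : ℕ → ℝ} {x t : ℝ} (hε : ∀ i, |ε i| ≤ 1) (hx : X.Encl ε x)
    (ht : T.Encl ε t) (h : ycA X T = some c) : c.Encl ε (yy x t) := by
  have hD := DR_pos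
  unfold ycA at h
  obtain ⟨h1, h⟩ := NumU.cond_some h
  obtain ⟨h2, h⟩ := NumU.cond_some h
  obtain ⟨u, hu, rfl⟩ := mapA_some h
  have a1 := abs_le.1 (hx.tot hε)
  have a2 : ((X.q + X.tot + 1 : ℕ) : ℝ) ≤ X.p := by exact_mod_cast Nat.le_of_ble_eq_true h1
  have a3 : ((X.p + X.tot + 1 : ℕ) : ℝ) ≤ ((68719476736 + X.q : ℕ) : ℝ) := by
    exact_mod_cast Nat.le_of_ble_eq_true h2
  rw [Nat.cast_add 68719476736, DN_cast] at a3
  push_cast at a2 a3
  have x0 : 0 < x := by
    have : 0 < x * DR := by linarith only [a1, a2, a1.1]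
    exact (mul_pos_iff_of_pos_right hD).1 this
  have x1 : x < 1 := by
    have : x * DR < 1 * DR := by linarith only [a1, a3, a1.2]
    exact lt_of_mul_lt_mul_right this hD.le
  rw [NumX.yy_lnB x0 x1]
  exact (hx.lnB hε ht hu).neg

/-- near an integer: `- π / 2 sign t` -/
def ynA (X T : A) : Option A :=
  let y := Nat.add (Nat.add X.p X.q) X.tot
  let t := tLo T.p T.q T.tot
  cond (Nat.ble y 8589934592) (cond (Nat.ble 1 t)
    (match sgB T.p T.q T.tot with
      | none => none
      | some b => cond b (some ⟨0, 107944301636, Nat.add 2 (ynE y t), G.nil⟩)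
        (some ⟨107944301636, 0, Nat.add 2 (ynE y t), G.nil⟩)) none) none

theorem half_pi_real : |Real.pi / 2 * DR - 107944301636| ≤ 2 := by
  have h3 := Real.pi_gt_d20
  have h4 := Real.pi_lt_d20
  rw [abs_le]
  unfold DR
  constructor <;> linarith only [h3, h4]

theorem ynA_spec {X T c : A} {ε : ℕ → ℝ} {x t : ℝ} (hε : ∀ i, |ε i| ≤ 1) (hx : X.Encl ε x)
    (ht : T.Encl ε t) (h : ynA X T = some c) : c.Encl ε (yy x t) := by
  have hD := DR_pos
  unfold ynA at h
  simp only at h
  obtain ⟨h1, h⟩ := NumU.cond_some h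
  obtain ⟨h2, h⟩ := NumU.cond_some h
  have a1 : ((Nat.add (Nat.add X.p X.q) X.tot : ℕ) : ℝ) ≤ ((8589934592 : ℕ) : ℝ) := by
    exact_mod_cast Nat.le_of_ble_eq_true h1
  have a2 := abs_of_tot hε hx
  have a3 : |x| ≤ 1 / 8 := by
    have e : ((8589934592 : ℕ) : ℝ) = 1 / 8 * DR := by unfold DR; norm_num
    rw [e] at a1
    exact le_of_mul_le_mul_right (a2.trans a1) hD
  have a4 : 0 < tLo T.p T.q T.tot := Nat.le_of_ble_eq_true h2
  have a5 := tLo_spec (ht.tot hε)
  rw [abs_mul, abs_of_pos hD] at a5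
  have a6 : t ≠ 0 := by
    rintro rfl
    have : (0 : ℝ) < ((tLo T.p T.q T.tot : ℕ) : ℝ) := by exact_mod_cast a4
    rw [abs_zero, zero_mul] at a5
    linarith only [a5, this]
  rcases hb : sgB T.p T.q T.tot with _ | b
  · rw [hb] at h; exact absurd h (by simp)
  rw [hb] at h
  simp only at h
  have a7 := sgB_spec (ht.tot hε) hb
  have a8 := NumX.yy_near a6 a3
  have a9 := ynE_spec a4 a2 a5
  have a10 := mul_le_mul_of_nonneg_right a8 hD.le
  have a11 := abs_le.1 half_pi_real
  have e1 : |yy x t + Real.pi / 2 * sg t| * DR = |(yy x t + Real.pi / 2 * sg t) * DR| := by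
    rw [abs_mul, abs_of_pos hD]
  rw [e1] at a10
  have a12 := abs_le.1 (a10.trans a9)
  rw [a7] at a12
  set E := ynE (Nat.add (Nat.add X.p X.q) X.tot) (tLo T.p T.q T.tot)
  rcases b with _ | _
  · rw [cond_false] at h a12
    obtain rfl := Option.some.inj h
    change |yy x t * DR - (((107944301636 : ℕ) : ℝ) - ((0 : ℕ) : ℝ) + 0)| ≤ ((2 + E : ℕ) : ℝ)
    push_cast
    rw [abs_le]
    constructor <;> nlinarith only [a11, a12, a12.1, a12.2, a11.1, a11.2]
  · rw [cond_true] at h a12
    obtain rfl := Option.some.inj h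
    change |yy x t * DR - (((0 : ℕ) : ℝ) - ((107944301636 : ℕ) : ℝ) + 0)| ≤ ((2 + E : ℕ) : ℝ)
    push_cast
    rw [abs_le]
    constructor <;> nlinarith only [a11, a12, a12.1, a12.2, a11.1, a11.2]

/-- the rough bound: `0` with the error `π` for `-1/2 ≤ x ≤ 3/2` or `3 π / 2` for `-1 ≤ x ≤ 2` -/
def yrE (p q s : ℕ) : Option ℕ :=
  cond (Nat.ble (Nat.add q s) (Nat.add p 68719476736))
    (cond (Nat.ble (Nat.add p s) (Nat.add q 137438953472))
      (cond (Nat.ble (Nat.add q s) (Nat.add p 34359738368))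
        (cond (Nat.ble (Nat.add p s) (Nat.add q 103079215104)) (some 215888603273)
          (some 323832904909)) (some 323832904909)) none) none

theorem yrE_spec {p q s k : ℕ} {x t : ℝ} (hx : |x * DR - ((p : ℝ) - q)| ≤ s)
    (h : yrE p q s = some k) : |yy x t| * DR ≤ k := by
  have hD := DR_pos
  have h3 := Real.pi_gt_d20
  have h4 := Real.pi_lt_d20
  have a1 := abs_le.1 hx
  unfold yrE at h
  obtain ⟨b1, h⟩ := NumU.cond_some h
  obtain ⟨b2, h⟩ := NumU.cond_some h
  have c1 : ((q + s : ℕ) : ℝ) ≤ ((p + 68719476736 : ℕ) : ℝ) := by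
    exact_mod_cast Nat.le_of_ble_eq_true b1
  have c2 : ((p + s : ℕ) : ℝ) ≤ ((q + 137438953472 : ℕ) : ℝ) := by
    exact_mod_cast Nat.le_of_ble_eq_true b2
  have e1 : ((68719476736 : ℕ) : ℝ) = DR := DN_cast
  have e2 : ((137438953472 : ℕ) : ℝ) = 2 * DR := by unfold DR; norm_num
  rw [Nat.cast_add, Nat.cast_add, e1] at c1
  rw [Nat.cast_add, Nat.cast_add, e2] at c2
  have d1 : -1 ≤ x := by
    have : -1 * DR ≤ x * DR := by linarith only [a1, c1, a1.1]
    exact le_of_mul_le_mul_right this hD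
  have d2 : x ≤ 2 := by
    have : x * DR ≤ 2 * DR := by linarith only [a1, c2, a1.2]
    exact le_of_mul_le_mul_right this hD
  have g0 : |yy x t| * DR ≤ ((323832904909 : ℕ) : ℝ) := by
    have := mul_le_mul_of_nonneg_right (NumX.abs_yy_le_pi (t := t) d1 d2) hD.le
    refine this.trans ?_
    unfold DR
    push_cast
    linarith only [h3, h4]
  rcases b3 : Nat.ble (Nat.add q s) (Nat.add p 34359738368) with _ | _
  · rw [b3, cond_false] at h
    obtain rfl := Option.some.inj h
    exact g0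
  rw [b3, cond_true] at h
  rcases b4 : Nat.ble (Nat.add p s) (Nat.add q 103079215104) with _ | _
  · rw [b4, cond_false] at h
    obtain rfl := Option.some.inj h
    exact g0
  rw [b4, cond_true] at h
  obtain rfl := Option.some.inj h
  have c3 : ((q + s : ℕ) : ℝ) ≤ ((p + 34359738368 : ℕ) : ℝ) := by
    exact_mod_cast Nat.le_of_ble_eq_true b3
  have c4 : ((p + s : ℕ) : ℝ) ≤ ((q + 103079215104 : ℕ) : ℝ) := by
    exact_mod_cast Nat.le_of_ble_eq_true b4
  have e3 : ((34359738368 : ℕ) : ℝ) = 1 / 2 * DR := by unfold DR; norm_num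
  have e4 : ((103079215104 : ℕ) : ℝ) = 3 / 2 * DR := by unfold DR; norm_num
  rw [Nat.cast_add, Nat.cast_add, e3] at c3
  rw [Nat.cast_add, Nat.cast_add, e4] at c4
  have d3 : -(1 / 2) ≤ x := by
    have : -(1 / 2) * DR ≤ x * DR := by linarith only [a1, c3, a1.1]
    exact le_of_mul_le_mul_right this hD
  have d4 : x ≤ 3 / 2 := by
    have : x * DR ≤ 3 / 2 * DR := by linarith only [a1, c4, a1.2]
    exact le_of_mul_le_mul_right this hD
  have := mul_le_mul_of_nonneg_right (NumX.abs_yy_le_one_pi (t := t) d3 d4) hD.le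
  refine this.trans ?_
  unfold DR
  push_cast
  linarith only [h3, h4]

def yrA (X : A) : Option A := match yrE X.p X.q X.tot with
  | none => none
  | some k => some ⟨0, 0, k, G.nil⟩

theorem yrA_spec {X c : A} {ε : ℕ → ℝ} {x : ℝ} (t : ℝ) (hε : ∀ i, |ε i| ≤ 1) (hx : X.Encl ε x)
    (h : yrA X = some c) : c.Encl ε (yy x t) := by
  have hD := DR_pos
  unfold yrA at h
  rcases hk : yrE X.p X.q X.tot with _ | k
  · rw [hk] at h; exact absurd h (by simp)
  rw [hk] at h
  obtain rfl := Option.some.inj h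
  have h1 := yrE_spec (t := t) (hx.tot hε) hk
  change |yy x t * DR - (((0 : ℕ) : ℝ) - ((0 : ℕ) : ℝ) + 0)| ≤ (k : ℝ)
  simpa [abs_mul, abs_of_pos hD] using h1

/-- bind -/
def bindA (x : Option A) (f : A → Option A) : Option A := match x with
  | none => none
  | some a => f a

theorem bindA_some {f : A → Option A} {x : Option A} {c : A} (h : bindA x f = some c) :
    ∃ a, x = some a ∧ f a = some c := by
  unfold bindA at h
  rcases x with _ | a
  · exact absurd h (by simp)
  · exact ⟨a, rfl, h⟩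

/-- `YY (x + i t)` for every real `x` -/
def ywA (a b : A) : Option A :=
  let X := a.nf
  let T := b.nf
  let s := sgB T.p T.q T.tot
  cond (Nat.beq X.q 0)
    (let n := Nat.div X.p 68719476736
     let m := Nat.div (Nat.add X.p 34359738368) 68719476736
     pickA (bindA (ycA (shD n X) T) (addS n s))
      (minA (bindA (ynA (shD m X).nf T) (addS m s)) (yrA X)))
    (let n := Nat.div (Nat.add X.q 68719476735) 68719476736
     let m := Nat.div (Nat.add X.q 34359738368) 68719476736
     pickA (bindA (ycA (shU n X) T) (subS n s))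
      (minA (bindA (ynA (shU m X).nf T) (subS m s)) (yrA X)))

theorem ywA_spec {a b c : A} {ε : ℕ → ℝ} {x t : ℝ} (hε : ∀ i, |ε i| ≤ 1) (hx : a.Encl ε x)
    (ht : b.Encl ε t) (h : ywA a b = some c) : c.Encl ε (yy x t) := by
  unfold ywA at h
  simp only at h
  have hX := hx.nf
  have hT := ht.nf
  have hs : ∀ c, sgB b.nf.p b.nf.q b.nf.tot = some c → sg t = cond c 1 (-1) := fun c hc =>
    sgB_spec (hT.tot hε) hc
  have eD : ∀ n : ℕ, yy x t = yy (x - n) t + n * (Real.pi * sg t) := by
    intro n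
    rw [← yy_add_nat, sub_add_cancel]
  have eU : ∀ n : ℕ, yy x t = yy (x + n) t - n * (Real.pi * sg t) := by
    intro n
    rw [yy_add_nat]
    ring
  rcases h1 : Nat.beq a.nf.q 0 with _ | _
  · rw [h1, cond_false] at h
    rcases pickA_spec h with h | h
    · obtain ⟨u, hu, h⟩ := bindA_some h
      rw [eU (Nat.div (Nat.add a.nf.q 68719476735) 68719476736)]
      exact subS_spec hε hs (ycA_spec hε (shU_spec hX _) hT hu) h
    · rcases minA_spec h with h | h
      · obtain ⟨u, hu, h⟩ := bindA_some h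
        rw [eU (Nat.div (Nat.add a.nf.q 34359738368) 68719476736)]
        exact subS_spec hε hs (ynA_spec hε (shU_spec hX _).nf hT hu) h
      · exact yrA_spec t hε hX h
  · rw [h1, cond_true] at h
    rcases pickA_spec h with h | h
    · obtain ⟨u, hu, h⟩ := bindA_some h
      rw [eD (Nat.div a.nf.p 68719476736)]
      exact addS_spec hε hs (ycA_spec hε (shD_spec hX _) hT hu) h
    · rcases minA_spec h with h | h
      · obtain ⟨u, hu, h⟩ := bindA_some h
        rw [eD (Nat.div (Nat.add a.nf.p 34359738368) 68719476736)]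
        exact addS_spec hε hs (ynA_spec hε (shD_spec hX _).nf hT hu) h
      · exact yrA_spec t hε hX h

end Pool.Agent.Work.NumG
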